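import Pool.Agent.helper37.NF.Spec
import Pool.Agent.helper72.UP.Spec

/-!
# Project MA (MP_7e34bc_co, Q2, middle range, part (A): many positive and many negative weights)

RULES. Row `ma:XXX`: file `Pool/Agent/<seat>/MA/XXX.lean`, `import Pool.Agent.helper37.MA.Spec`, `set_option autoImplicit false`, `namespace Pool.Agent.helper37.MA`,
`open Finset Pool.Agent.NK Pool.Agent.helper37.NF`, theorem line as in the note (the other rows are hypotheses, so all rows are independent); auxiliary lemmas with prefix `XXX_`. Mathlib only.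
A FALSE or awkward statement: one line to helper37 at once.
-/

set_option autoImplicit false

namespace Pool.Agent.helper37.MA

open Finset Pool.Agent.NK Pool.Agent.helper37.NF

/-- the product of the binomials -/
def ff (a b t i : ℕ) : ℕ := a.choose i * b.choose (t - i)

/-- **PEP** (medium; copy). Copy `PER_main` of Pool/Agent/helper4/NK/PER.lean: its proof uses the hypothesis `hV` only for `a = Fintype.card {i // 0 < x i}`, `b = Fintype.card {i // ¬ 0 < x i}` (`Fintype.card_subtype`; `¬ 0 < x i` iff `x i < 0` as `x i ≠ 0`).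
`F` = the filter in the definition of `zer` (Pool/Agent/helper72/UP/Spec.lean). -/
def PEP_stmt : Prop := ∀ (n k V : ℕ) (x : Fin n → ℝ), (∀ i, x i ≠ 0) →
  (∀ C : Finset (ℕ × ℕ), (∀ c ∈ C, 1 ≤ c.1 ∧ 1 ≤ c.2 ∧ c.1 + c.2 ≤ k) → IsCh C →
    ∑ c ∈ C, (Fintype.card {i // 0 < x i}).choose c.1 * (Fintype.card {i // x i < 0}).choose c.2 ≤ V) →
  Pool.Agent.helper72.UP.zer x k ≤ V

/-- **UPI** (short). With `A = a+1, T = t+1, I = i+1, N = a+b+2`: `(a-i)(t-i) - (i+1)(b-t+i+1) = A T - I N` and `ff (i+1) (i+1) (b-t+i+1) = ff i (a-i) (t-i)` (`Nat.choose_succ_right_eq`). (1) `A ≥ 4 I`, `4 T ≥ N`; if `t - i > b` the left side is 0.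
(2) `2 I ≥ A`, `N ≥ 2 T`, and `b - t + i + 1 > 0`. -/
def UPI_stmt : Prop := ∀ a b t i : ℕ, i + 1 ≤ t →
  (a + b ≤ 4 * t → 4 * (i + 1) ≤ a + 1 → ff a b t i ≤ ff a b t (i + 1)) ∧
  (2 * t ≤ a + b → a + 1 ≤ 2 * (i + 1) → ff a b t (i + 1) ≤ ff a b t i)

/-- **SYM** (short). Symmetry of the hypergeometric distribution; factorials (`Nat.choose_mul_factorial_mul_factorial` six times), `b - (t - i) = a + b - t - (a - i)`. -/
def SYM_stmt : Prop := ∀ a b t i : ℕ, i ≤ t → i ≤ a → t - i ≤ b →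
  ff a b t i * (a + b).choose a = t.choose i * (a + b - t).choose (a - i) * (a + b).choose t

/-- **CB1** (short-medium, from AVG of helper37/NF/Spec, UNI of helper55/NK/Spec, SYM). `t - i > b`: the left side is 0. AVG with `(i, a - i)`, `N = 2 a`, `κ = C(2i,i) C(2(a-i),a-i) / C(2a,a)`; its hypothesis is UNI: `i (2a+1)/a = 2 i` as `i < a`. It gives
`C(t,i) C(n-t,a-i) ≤ κ C(n,a)` for `n = a + b ≥ 2 a`; SYM; cancel `C(n,a) > 0`. -/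
def CB1_stmt : Prop := ∀ a b t i : ℕ, 1 ≤ i → i < a → a ≤ b → i ≤ t → t ≤ a + b →
  ff a b t i * (2 * a).choose a ≤ (2 * i).choose i * (2 * (a - i)).choose (a - i) * (a + b).choose t

/-- **CB2** (short). Induction, `Nat.succ_mul_centralBinom_succ` (`(2 i).choose i = Nat.centralBinom i` by `rfl`): `C(2i+2,i+1) (i+1) = 2 (2i+1) C(2i,i)`; `4 (2i+1)(2i+3) ≤ 16 (i+1)²` and `4 (2a+1)² (a+1) ≥ 16 a (a+1)²`. -/
def CB2_stmt : Prop := ∀ i : ℕ, ((2 * i).choose i) ^ 2 * (2 * i + 1) ≤ 16 ^ i ∧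
  (1 ≤ i → 16 ^ i ≤ 4 * i * ((2 * i).choose i) ^ 2)

/-- **HYP** (medium, from UPI, CB1, CB2). `lo = (a+1)/4 ≥ 1`, `hi = (a+1)/2 < a`. `i < lo`: `ff i ≤ ff lo` by UPI (1) (`lo ≤ t`); `i > hi`: `ff i ≤ ff hi` by UPI (2). `lo ≤ i ≤ hi`, `j = a - i`: CB1 squared and CB2:
`ff² C(2a,a)² (2i+1)(2j+1) ≤ 16^a C(n,t)² ≤ 4 a C(2a,a)² C(n,t)²`, `2 (2i+1) ≥ a`, `2j+1 ≥ a`, so `a² ff² ≤ 8 a C(n,t)²`. -/
def HYP_stmt : Prop := ∀ a b t i : ℕ, 4 ≤ a → a ≤ b → a + b ≤ 4 * t → 2 * t ≤ a + b → i ≤ t →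
  a * (ff a b t i) ^ 2 ≤ 8 * ((a + b).choose t) ^ 2

/-- **GEO** (short). For `t ≤ k`: `C(n,t-1) (n-t+1) = C(n,t) t`, so `C(n,t-1) (n-k+1) ≤ C(n,t) k`. Induction on `k' ≤ k` (fixed `k`): `(n-2k+1) ∑_{t ≤ k'} C(n,t) ≤ (n-k+1) C(n,k')`:
`(n-k+1) C(n,k'-1) + (n-2k+1) C(n,k') ≤ k C(n,k') + (n-2k+1) C(n,k')`. -/
def GEO_stmt : Prop := ∀ n k : ℕ, 2 * k ≤ n →
  (n - 2 * k + 1) * ∑ t ∈ range (k + 1), n.choose t ≤ (n - k + 1) * n.choose k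

/-- **TAI** (short). For `3 t ≤ n + 1`, `t ≥ 1`: `2 C(n,t-1) ≤ C(n,t)`. So `∑_{t ≤ n/4} C(n,t) ≤ 2 C(n,n/4)` and `2^(n/3-n/4) C(n,n/4) ≤ C(n,n/3) ≤ C(n,k)` (`n/3 ≤ k ≤ n/2`). -/
def TAI_stmt : Prop := ∀ n k : ℕ, n ≤ 3 * k → 2 * k ≤ n →
  2 ^ (n / 3 - n / 4) * ∑ t ∈ range (n / 4 + 1), n.choose t ≤ 2 * n.choose k

/-- **RAT** (short). `C(n,k) k (n-k) = n (n-1) C(n-2,k-1)` and `3 k ≥ n`, `2 (n-k) ≥ n ≥ n - 1`. -/
def RAT_stmt : Prop := ∀ n k : ℕ, n ≤ 3 * k → 2 * k ≤ n → 2 ≤ n → n.choose k ≤ 6 * (n - 2).choose (k - 1)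

/-- **CHS** (medium, from HYP). First `m ff² ≤ 8 C(n,t)²` for `m ≤ a, b` (if `b < a`: HYP for `(b,a,t,t-i)`, `ff a b t i = ff b a t (t-i)`), so `ff ≤ sqrt (8/m) C(n,t)`. The sums `t = c.1 + c.2` of the elements of a strict chain are pairwise different and at most `k`.
Elements with `t > n/4` (then `4 t ≥ n`): this bound; elements with `t ≤ n/4`: `C(a,c.1) C(b,c.2) ≤ C(n,t)` (one term of `Nat.add_choose_eq`). Sum over `t` (injectivity, `Finset.sum_le_sum_of_subset` after `Finset.sum_image`). -/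
def CHS_stmt : Prop := ∀ (m a b k : ℕ) (C : Finset (ℕ × ℕ)), 4 ≤ m → m ≤ a → m ≤ b → 2 * k ≤ a + b →
  (∀ c ∈ C, 1 ≤ c.1 ∧ 1 ≤ c.2 ∧ c.1 + c.2 ≤ k) → IsCh C →
  ((∑ c ∈ C, a.choose c.1 * b.choose c.2 : ℕ) : ℝ) ≤
    Real.sqrt (8 / m) * ((∑ t ∈ range (k + 1), (a + b).choose t : ℕ) : ℝ) +
      ((∑ t ∈ range ((a + b) / 4 + 1), (a + b).choose t : ℕ) : ℝ)

/-- **AAA** (short-medium, from PEP, CHS, GEO, TAI, RAT): part (A). `p0 ≥ max 4 (72/ε²)`, `n0 = 60`. `n = a + b` (all `x i ≠ 0`). GEO and `n - 2k ≥ 2 ε n`, `n - k + 1 ≤ n`: `∑_{t ≤ k} C(n,t) ≤ C(n,k)/(2ε)`; `sqrt (8/p0) ≤ ε/3`: the first term of CHS is at most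
`C(n,k)/6`. TAI with `n/3 - n/4 ≥ 5`: the second term is at most `C(n,k)/16`. Together at most `C(n,k)/3 ≤ 2 C(n-2,k-1)` (RAT). `PEP` with `V = 2 C(n-2,k-1)`. -/
def AAA_stmt : Prop := ∀ ε : ℝ, 0 < ε → ∃ p0 n0 : ℕ, ∀ (n k : ℕ) (x : Fin n → ℝ), n0 ≤ n → n ≤ 3 * k →
  (k : ℝ) ≤ (1 / 2 - ε) * n → (∀ i, x i ≠ 0) → p0 ≤ Fintype.card {i // 0 < x i} → p0 ≤ Fintype.card {i // x i < 0} →
  Pool.Agent.helper72.UP.zer x k ≤ 2 * (n - 2).choose (k - 1)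

end Pool.Agent.helper37.MA
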